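import Pool.Agent.V1198.Cone.Basic

/-!
# Increasing nets with a supremum converge, but not all order bounded increasing sequences do

The space is `c₀ × ℝ³` with the cone of all `(a, z)` with `|z₁| ≤ 2 aₙ + z₃` and `|z₂| ≤ aₙ + z₃`
for all `n`.
-/

set_option autoImplicit false

namespace Pool.Agent.Results.MP_5ab9c0_an.NotOC

open Filter Topology Set Pool.Agent.V1198.Cone

universe u

/-- A decreasing net in the cone with infimum `0` converges to `0`. -/
theorem tendsto_zero {ι : Type u} [Preorder ι] [Nonempty ι] [IsDirectedOrder ι] {y : ι → Y}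
    (hP : ∀ j, y j ∈ P) (hdec : ∀ i j, i ≤ j → y i - y j ∈ P)
    (hinf : ∀ v, (∀ j, y j - v ∈ P) → -v ∈ P) : Tendsto y atTop (𝓝 0) := by
  let Z1 : ι → ℝ := fun j => (y j).2.1
  let Z2 : ι → ℝ := fun j => (y j).2.2.1
  let Z3 : ι → ℝ := fun j => (y j).2.2.2
  let d : ι → ℕ → ℝ := fun j n => (y j).1 n
  have hp1 : ∀ j n, |Z1 j| ≤ 2 * d j n + Z3 j := fun j n => (hP j n).1
  have hp2 : ∀ j n, |Z2 j| ≤ d j n + Z3 j := fun j n => (hP j n).2
  have hd1 : ∀ i j, i ≤ j → ∀ n, |Z1 i - Z1 j| ≤ 2 * (d i n - d j n) + (Z3 i - Z3 j) :=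
    fun i j hij n => (hdec i j hij n).1
  have hd2 : ∀ i j, i ≤ j → ∀ n, |Z2 i - Z2 j| ≤ (d i n - d j n) + (Z3 i - Z3 j) :=
    fun i j hij n => (hdec i j hij n).2
  have hz1 : ∀ j, |Z1 j| ≤ Z3 j := fun j => (P_lim (hP j)).1
  have hz2 : ∀ j, |Z2 j| ≤ Z3 j := fun j => (P_lim (hP j)).2
  have he1 : ∀ i j, i ≤ j → |Z1 i - Z1 j| ≤ Z3 i - Z3 j := fun i j hij => (P_lim (hdec i j hij)).1
  have he2 : ∀ i j, i ≤ j → |Z2 i - Z2 j| ≤ Z3 i - Z3 j := fun i j hij => (P_lim (hdec i j hij)).2
  -- limits of the coordinates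
  obtain ⟨L3, hL3⟩ : ∃ L, Tendsto Z3 atTop (𝓝 L) := by
    refine ⟨_, tendsto_atTop_ciInf (fun i j hij => ?_) ⟨0, ?_⟩⟩
    · have := (abs_nonneg _).trans (he1 i j hij)
      linarith
    · rintro _ ⟨j, rfl⟩
      exact (abs_nonneg _).trans (hz1 j)
  obtain ⟨L1, hL1⟩ : ∃ L, Tendsto Z1 atTop (𝓝 L) := by
    obtain ⟨M, hM⟩ : ∃ L, Tendsto (fun j => Z3 j - Z1 j) atTop (𝓝 L) := by
      refine ⟨_, tendsto_atTop_ciInf (fun i j hij => ?_) ⟨0, ?_⟩⟩
      · have h1 := (le_abs_self _).trans (he1 i j hij)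
        change Z3 j - Z1 j ≤ Z3 i - Z1 i
        linarith
      · rintro _ ⟨j, rfl⟩
        have := (le_abs_self _).trans (hz1 j)
        change 0 ≤ Z3 j - Z1 j
        linarith
    refine ⟨L3 - M, (hL3.sub hM).congr fun j => ?_⟩
    ring
  obtain ⟨L2, hL2⟩ : ∃ L, Tendsto Z2 atTop (𝓝 L) := by
    obtain ⟨M, hM⟩ : ∃ L, Tendsto (fun j => Z3 j - Z2 j) atTop (𝓝 L) := by
      refine ⟨_, tendsto_atTop_ciInf (fun i j hij => ?_) ⟨0, ?_⟩⟩
      · have h1 := (le_abs_self _).trans (he2 i j hij)
        change Z3 j - Z2 j ≤ Z3 i - Z2 i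
        linarith
      · rintro _ ⟨j, rfl⟩
        have := (le_abs_self _).trans (hz2 j)
        change 0 ≤ Z3 j - Z2 j
        linarith
    refine ⟨L3 - M, (hL3.sub hM).congr fun j => ?_⟩
    ring
  have hL30 : 0 ≤ L3 := ge_of_tendsto' hL3 fun j => (abs_nonneg _).trans (hz1 j)
  have hL13 : |L1| ≤ L3 := le_of_tendsto_of_tendsto' hL1.abs hL3 hz1
  -- two lower bounds
  have hlow : ∀ σ : ℝ, |σ| = 1 → ∀ j, y j - ((0, L1, L2 - σ * (L3 / 2), 0) : Y) ∈ P := by
    intro σ hσ j n
    constructor
    · change |Z1 j - L1| ≤ 2 * (d j n - 0) + (Z3 j - 0)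
      refine le_of_tendsto (hL1.const_sub (Z1 j)).abs ?_
      filter_upwards [eventually_ge_atTop j] with i hi
      have h1 := hd1 j i hi n
      have h2 := (abs_nonneg _).trans (hp1 i n)
      linarith
    · change |Z2 j - (L2 - σ * (L3 / 2))| ≤ (d j n - 0) + (Z3 j - 0)
      have h3 : |Z2 j - L2| + L3 / 2 ≤ d j n + Z3 j := by
        refine le_of_tendsto ((hL2.const_sub (Z2 j)).abs.add (hL3.div_const 2)) ?_
        filter_upwards [eventually_ge_atTop j] with i hi
        have h1 := hd2 j i hi n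
        have h2 := (abs_nonneg _).trans (hp1 i n)
        linarith
      have h4 : Z2 j - (L2 - σ * (L3 / 2)) = (Z2 j - L2) + σ * (L3 / 2) := by ring
      rw [h4]
      refine (abs_add_le _ _).trans ?_
      rw [abs_mul, hσ, one_mul, abs_of_nonneg (by linarith : (0 : ℝ) ≤ L3 / 2)]
      linarith
  have hL3z : L3 = 0 := by
    have h1 := (P_lim (hinf _ (hlow 1 (by norm_num)))).2
    have h2 := (P_lim (hinf _ (hlow (-1) (by norm_num)))).2
    change |-(L2 - 1 * (L3 / 2))| ≤ -0 at h1
    change |-(L2 - -1 * (L3 / 2))| ≤ -0 at h2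
    rw [neg_zero, abs_nonpos_iff] at h1 h2
    linarith
  have hL1z : L1 = 0 := abs_nonpos_iff.mp (by linarith)
  have hL2z : L2 = 0 := by
    have : |L2| ≤ L3 := le_of_tendsto_of_tendsto' hL2.abs hL3 hz2
    exact abs_nonpos_iff.mp (by linarith)
  rw [hL3z] at hL3
  rw [hL1z] at hL1
  rw [hL2z] at hL2
  -- the coordinates
  have hg : ∀ n, Tendsto (fun j => 2 * d j n + Z3 j) atTop (𝓝 0) := by
    intro n
    obtain ⟨D, hD⟩ : ∃ L, Tendsto (fun j => 2 * d j n + Z3 j) atTop (𝓝 L) := by
      refine ⟨_, tendsto_atTop_ciInf (fun i j hij => ?_) ⟨0, ?_⟩⟩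
      · have h1 := (abs_nonneg _).trans (hd1 i j hij n)
        change 2 * d j n + Z3 j ≤ 2 * d i n + Z3 i
        linarith
      · rintro _ ⟨j, rfl⟩
        exact (abs_nonneg _).trans (hp1 j n)
    have hD0 : 0 ≤ D := ge_of_tendsto' hD fun j => (abs_nonneg _).trans (hp1 j n)
    let e : Y := (fs (fun m => if m = n then D / 2 else 0) (n + 1) fun m hm => if_neg (by omega),
      0, 0, 0)
    have he : ∀ j, y j - e ∈ P := by
      intro j m
      by_cases hm : m = n
      · subst hm
        have hem : e.1 m = D / 2 := if_pos rfl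
        constructor
        · change |Z1 j - 0| ≤ 2 * (d j m - e.1 m) + (Z3 j - 0)
          rw [hem]
          have h1 : |Z1 j - 0| ≤ (2 * d j m + Z3 j) - D := by
            refine le_of_tendsto_of_tendsto (hL1.const_sub (Z1 j)).abs (hD.const_sub _) ?_
            filter_upwards [eventually_ge_atTop j] with i hi
            have h1 := hd1 j i hi m
            linarith
          linarith
        · change |Z2 j - 0| ≤ (d j m - e.1 m) + (Z3 j - 0)
          rw [hem]
          have h1 : |Z2 j - 0| ≤ (d j m + Z3 j) - (D / 2 + 0 / 2) := by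
            refine le_of_tendsto_of_tendsto (hL2.const_sub (Z2 j)).abs
              (((hD.div_const 2).add (hL3.div_const 2)).const_sub _) ?_
            filter_upwards [eventually_ge_atTop j] with i hi
            have h1 := hd2 j i hi m
            linarith
          linarith
      · have hem : e.1 m = 0 := if_neg hm
        constructor
        · change |Z1 j - 0| ≤ 2 * (d j m - e.1 m) + (Z3 j - 0)
          rw [hem, sub_zero, sub_zero, sub_zero]
          exact hp1 j m
        · change |Z2 j - 0| ≤ (d j m - e.1 m) + (Z3 j - 0)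
          rw [hem, sub_zero, sub_zero, sub_zero]
          exact hp2 j m
    have h1 := (hinf e he n).1
    have hen : e.1 n = D / 2 := if_pos rfl
    change |-(0 : ℝ)| ≤ 2 * (-(e.1 n)) + -0 at h1
    rw [hen, neg_zero, abs_zero] at h1
    have hDz : D = 0 := by linarith
    rwa [hDz] at hD
  -- uniform convergence
  have hfst : Tendsto (fun j => (y j).1) atTop (𝓝 0) := by
    rw [Metric.tendsto_nhds]
    intro ε hε
    have h3 : ∀ᶠ j in atTop, Z3 j < ε / 4 := hL3.eventually_lt_const (by positivity)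
    obtain ⟨j₀, hj₀⟩ := h3.exists
    have h4 : ∀ᶠ n in atTop, 2 * d j₀ n + Z3 j₀ < ε / 2 := by
      have h5 : Tendsto (fun n => 2 * d j₀ n + Z3 j₀) atTop (𝓝 (2 * 0 + Z3 j₀)) :=
        ((tendsto_coord (y j₀).1).const_mul 2).add_const _
      exact h5.eventually_lt_const (by linarith)
    obtain ⟨N, hN⟩ := eventually_atTop.mp h4
    have h5 : ∀ᶠ j in atTop, ∀ n ∈ Finset.range N, 2 * d j n + Z3 j < ε / 2 := by
      rw [Filter.eventually_all_finset]
      exact fun n _ => (hg n).eventually_lt_const (by positivity)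
    filter_upwards [h3, h5, eventually_ge_atTop j₀] with j hj3 hj5 hj
    rw [dist_zero_right]
    refine lt_of_le_of_lt (norm_le_of _ (C := ε / 2) (by positivity) fun n => ?_) (by linarith)
    have h6 : 2 * d j n + Z3 j < ε / 2 := by
      rcases lt_or_ge n N with hn | hn
      · exact hj5 n (Finset.mem_range.mpr hn)
      · have h7 := hN n hn
        have h8 := (abs_nonneg _).trans (hd1 j₀ j hj n)
        linarith
    have h7 := (abs_nonneg _).trans (hp1 j n)
    have h8 := (abs_nonneg _).trans (hz1 j)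
    change |d j n| ≤ ε / 2
    rw [abs_le]
    constructor <;> linarith
  exact hfst.prodMk_nhds (hL1.prodMk_nhds (hL2.prodMk_nhds hL3))

/-- There is an ordered Banach space (with closed cone) in which every increasing net with a
supremum converges in norm to the supremum, although there is an order bounded increasing sequence
that does not converge in norm. -/
theorem result : ∃ (X : Type) (_ : NormedAddCommGroup X) (_ : NormedSpace ℝ X) (P : Set X),
    CompleteSpace X ∧ IsClosedCone P ∧
      (∀ (ι : Type u) [Preorder ι] [Nonempty ι] [IsDirectedOrder ι] (x : ι → X) (s : X),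
        Increasing P x → IsSupr P x s → Tendsto x atTop (𝓝 s)) ∧
      ∃ x : ℕ → X, Increasing P x ∧ (∃ u, IsUpper P x u) ∧ ¬ ∃ l, Tendsto x atTop (𝓝 l) := by
  refine ⟨Y, inferInstance, inferInstance, P, inferInstance, isClosedCone_P, ?_, xs,
    increasing_xs, ⟨ub 1, isUpper_ub (by norm_num)⟩, ?_⟩
  · intro ι _ _ _ x s hx hs
    have h1 : Tendsto (fun j => s - x j) atTop (𝓝 0) := by
      refine tendsto_zero hs.1 (fun i j hij => ?_) fun v hv => ?_
      · have : s - x i - (s - x j) = x j - x i := by abel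
        rw [this]
        exact hx i j hij
      · have h2 : IsUpper P x (s - v) := fun j => by
          have : s - v - x j = s - x j - v := by abel
          rw [this]
          exact hv j
        have h3 := hs.2 _ h2
        have : s - v - s = -v := by abel
        rwa [this] at h3
    have h2 := h1.const_sub s
    rw [sub_zero] at h2
    exact h2.congr fun j => by abel
  · rintro ⟨l, hl⟩
    have h1 : Tendsto (fun k => ‖xs (k + 1) - xs k‖) atTop (𝓝 0) := by
      have := ((hl.comp (tendsto_add_atTop_nat 1)).sub hl).norm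
      rwa [sub_self, norm_zero] at this
    have h2 : ∀ k, 1 ≤ ‖xs (k + 1) - xs k‖ := by
      intro k
      have h3 : ‖(xs (k + 1) - xs k).1‖ ≤ ‖xs (k + 1) - xs k‖ := norm_fst_le _
      refine le_trans ?_ h3
      refine le_trans ?_ (norm_coord_le _ k)
      change 1 ≤ |ones (k + 1) k - ones k k|
      rw [ones_apply, ones_apply, if_pos (Nat.lt_succ_self k), if_neg (lt_irrefl k)]
      norm_num
    have := ge_of_tendsto' h1 h2
    norm_num at this

end Pool.Agent.Results.MP_5ab9c0_an.NotOC
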